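import Pool.Agent.helper15.LC.Spec

/-!
# Project lc, row EPL: the energy of the torus state near `(b, 0)` is almost that of the plus state
-/

open Finset Filter Topology

namespace CO

open CU

/-! ### cyclic distances -/

private theorem EPL_dk_ev {d n : ℕ} [NeZero n] (hn : 2 ≤ n) (i k : Fin d) :
    ((ev i : Site d n) k).valMinAbs.natAbs ≤ 1 := by
  unfold ev
  by_cases h : k = i
  · subst h
    rw [Pi.single_eq_same]
    have h1 := ZMod.valMinAbs_natCast_of_le_half (n := n) (a := 1) (by omega)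
    rw [Nat.cast_one] at h1
    rw [h1]
    simp
  · rw [Pi.single_eq_of_ne h]
    simp

private theorem EPL_near {d n : ℕ} [NeZero n] (hn : 2 ≤ n) {R : ℕ} {z : Site d n} (i : Fin d)
    (h : Near R (ev i) z) : Near (R + 1) 0 z := by
  intro k
  have h1 := h k
  have h2 := EPL_dk_ev (n := n) hn i k
  have h3 : z k - (0 : Site d n) k = (z k - (ev i : Site d n) k) + (ev i : Site d n) k := by
    rw [Pi.zero_apply]
    ring
  rw [h3]
  have h4 := (ZMod.natAbs_valMinAbs_add_le (z k - (ev i : Site d n) k) ((ev i : Site d n) k)).trans (Int.natAbs_add_le _ _)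
  omega

/-! ### FKG -/

private theorem EPL_edge (a b c e : Bool) : sg a * sg b + sg c * sg e ≤
    sg (a ⊓ c) * sg (b ⊓ e) + sg (a ⊔ c) * sg (b ⊔ e) := by
  cases a <;> cases b <;> cases c <;> cases e <;> norm_num [sg]

private theorem EPL_st2 (a b : Bool) : sg a + sg b = sg (a ⊓ b) + sg (a ⊔ b) := by
  cases a <;> cases b <;> norm_num [sg]

private theorem EPL_hol (hHHT : HHT_stmt) (d n : ℕ) [NeZero n] (b h : ℝ) (hb : 0 ≤ b) :
    Hol (fun σ : Conf d n => Real.exp (CWM.HH (KT b fun _ => 0) (fun _ => h) σ))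
      (fun σ : Conf d n => Real.exp (CWM.HH (KT b fun _ => 0) (fun _ => h) σ)) := by
  refine ⟨fun _ => Real.exp_pos _, fun _ => Real.exp_pos _, fun σ τ => ?_⟩
  have e : ∀ ρ : Conf d n, CWM.HH (KT b fun _ => 0) (fun _ => h) ρ = b * HN ρ + h * Mg ρ := by
    intro ρ
    rw [(hHHT d n b h (fun _ => 0) ρ).1]
    simp
  simp only [e]
  rw [← Real.exp_add, ← Real.exp_add, Real.exp_le_exp]
  have h1 : Mg σ + Mg τ = Mg (σ ⊓ τ) + Mg (σ ⊔ τ) := by
    unfold Mg
    rw [← Finset.sum_add_distrib, ← Finset.sum_add_distrib]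
    refine Finset.sum_congr rfl fun x _ => ?_
    rw [Pi.inf_apply, Pi.sup_apply]
    exact EPL_st2 _ _
  have h2 : HN σ + HN τ ≤ HN (σ ⊓ τ) + HN (σ ⊔ τ) := by
    unfold HN
    rw [← Finset.sum_add_distrib, ← Finset.sum_add_distrib]
    refine Finset.sum_le_sum fun x _ => ?_
    rw [← Finset.sum_add_distrib, ← Finset.sum_add_distrib]
    refine Finset.sum_le_sum fun i _ => ?_
    exact EPL_edge _ _ _ _
  have h3 := mul_le_mul_of_nonneg_left h2 hb
  have h4 := congrArg (fun t => h * t) h1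
  simp only [mul_add] at h3 h4
  linarith

/-- FKG: plus boundary condition increases the average of an increasing function. -/
private theorem EPL_fkg (hSTO : STO_stmt) (hCAB : CAB_stmt) (hHHT : HHT_stmt) (d n : ℕ) [NeZero n] (b h : ℝ) (hb : 0 ≤ b)
    (A : Finset (Site d n)) (f : Conf d n → ℝ) (hf : Monotone f) :
    ex (KT b fun _ => 0) (fun _ => h) f ≤ exA (KT b fun _ => 0) (fun _ => h) A f := by
  set P : Conf d n → ℝ := fun σ => Real.exp (CWM.HH (KT b fun _ => 0) (fun _ => h) σ) with hP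
  have hPpos : ∀ σ, 0 < P σ := fun σ => Real.exp_pos _
  obtain ⟨c1, _, c3, c4, c5, _, _⟩ := hCAB (Site d n) P hPpos A
  have h1 : ex (KT b fun _ => 0) (fun _ => h) f = aw P f := rfl
  have hfb : fb A (fun _ => true : Conf d n) = pl A := rfl
  have h2 : exA (KT b fun _ => 0) (fun _ => h) A f = ca P A f (fun _ => true) := by
    unfold ca exA
    rw [hfb]
  have h3 : ∀ σ : Conf d n, ca P A f σ ≤ ca P A f (fun _ => true) := fun σ =>
    hSTO (Site d n) P P (EPL_hol hHHT d n b h hb) A f hf σ (fun _ => true) (fun x => by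
      cases σ x <;> simp)
  have h4 : aw P (fun σ => ca P A f σ) = aw P f := by
    have := c4 f (fun _ => 1) (fun _ _ _ => rfl)
    simpa using this
  have h5 : aw P (fun σ => ca P A f σ) ≤ ca P A f (fun _ => true) := by
    have hZ : 0 < ∑ σ : Conf d n, P σ := Finset.sum_pos (fun σ _ => hPpos σ) ⟨fun _ => true, mem_univ _⟩
    unfold aw
    rw [div_le_iff₀ hZ, Finset.mul_sum]
    refine Finset.sum_le_sum fun σ _ => ?_
    rw [mul_comm]
    exact mul_le_mul_of_nonneg_right (h3 σ) (hPpos σ).le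
  rw [h1, h2, ← h4]
  exact h5

private theorem EPL_mono {d n : ℕ} (x y : Site d n) :
    Monotone fun σ : Conf d n => sg (σ x) + sg (σ y) - sg (σ x) * sg (σ y) := by
  intro σ τ hστ
  have hx : σ x ≤ τ x := hστ x
  have hy : σ y ≤ τ y := hστ y
  simp only
  revert hx hy
  cases σ x <;> cases σ y <;> cases τ x <;> cases τ y <;> intro hx hy <;> first | (exfalso; revert hx hy; decide) | norm_num [sg]

/-! ### perturbation -/

/-- indicator of the complement of `B` -/
private noncomputable def EPL_i {V : Type} [DecidableEq V] (B : Finset V) (x : V) : ℝ := if x ∈ B then 0 else 1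

private theorem EPL_pair {V : Type} [DecidableEq V] (B : Finset V) (σ : V → Bool) (hσ : ∀ x, x ∉ B → σ x = true)
    (x y : V) : |sg (σ x) * sg (σ y) - EPL_i B x * EPL_i B y| ≤ (if x ∈ B then (1 : ℝ) else 0) + (if y ∈ B then 1 else 0) := by
  have h1 : |sg (σ x) * sg (σ y)| = 1 := by
    cases σ x <;> cases σ y <;> simp [sg]
  unfold EPL_i
  by_cases hx : x ∈ B
  · rw [if_pos hx, if_pos hx, zero_mul, sub_zero, h1]
    split_ifs <;> norm_num
  · by_cases hy : y ∈ B
    · rw [if_pos hy, if_pos hy, mul_zero, sub_zero, h1, if_neg hx]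
      norm_num
    · rw [if_neg hx, if_neg hy, if_neg hx, if_neg hy, hσ x hx, hσ y hy]
      norm_num [sg]

private theorem EPL_site {V : Type} [DecidableEq V] (B : Finset V) (σ : V → Bool) (hσ : ∀ x, x ∉ B → σ x = true)
    (x : V) : |sg (σ x) - EPL_i B x| ≤ (if x ∈ B then (1 : ℝ) else 0) := by
  have h1 : |sg (σ x)| = 1 := by
    cases σ x <;> simp [sg]
  unfold EPL_i
  by_cases hx : x ∈ B
  · rw [if_pos hx, if_pos hx, sub_zero, h1]
  · rw [if_neg hx, if_neg hx, hσ x hx]
    norm_num [sg]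

private theorem EPL_core (hHHT : HHT_stmt) (hPTB : PTB_stmt) (d n : ℕ) [NeZero n] (β h T : ℝ) (J : Site d n → ℝ)
    (hh : 0 ≤ h) (hJ : ∀ z, 0 ≤ J z) (hJT : (∑ z, J z) ≤ T) (hhT : h ≤ T) (B : Finset (Site d n)) (f : Conf d n → ℝ)
    (hf : ∀ σ, |f σ| ≤ 1) :
    exA (KT β J) (fun _ => h) (univ \ B) f ≤
      exA (KT β fun _ => 0) (fun _ => 0) (univ \ B) f + 2 * (Real.exp (2 * (3 * T * B.card)) - 1) := by
  have hmem : ∀ σ : Conf d n, σ ∈ pl (univ \ B) ↔ ∀ x, x ∉ B → σ x = true := by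
    intro σ
    unfold pl
    rw [Finset.mem_filter]
    constructor
    · intro h x hx
      exact h.2 x (Finset.mem_sdiff.mpr ⟨mem_univ _, hx⟩)
    · intro h
      exact ⟨mem_univ _, fun x hx => h x (Finset.mem_sdiff.mp hx).2⟩
  have hne : (pl (univ \ B) : Finset (Conf d n)).Nonempty := ⟨fun _ => true, (hmem _).mpr fun _ _ => rfl⟩
  have hP := hPTB (Conf d n) (pl (univ \ B)) (fun σ => Real.exp (β * HN σ))
    (fun σ => (∑ x, ∑ y, J (y - x) * (sg (σ x) * sg (σ y))) + h * Mg σ) f
    ((∑ x, ∑ y, J (y - x) * (EPL_i B x * EPL_i B y)) + h * ∑ x, EPL_i B x) (3 * T * B.card) hne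
    (fun σ => Real.exp_pos _) (fun σ _ => hf σ) (by
      intro σ hσ
      have hσ' := (hmem σ).mp hσ
      have e1 : (∑ x : Site d n, ∑ y : Site d n, J (y - x) * (sg (σ x) * sg (σ y))) + h * Mg σ -
          ((∑ x : Site d n, ∑ y : Site d n, J (y - x) * (EPL_i B x * EPL_i B y)) + h * ∑ x, EPL_i B x) =
          (∑ x : Site d n, ∑ y : Site d n, J (y - x) * (sg (σ x) * sg (σ y) - EPL_i B x * EPL_i B y)) +
            h * ∑ x, (sg (σ x) - EPL_i B x) := by
        have h1 : (∑ x : Site d n, ∑ y : Site d n, J (y - x) * (sg (σ x) * sg (σ y) - EPL_i B x * EPL_i B y)) =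
            (∑ x : Site d n, ∑ y : Site d n, J (y - x) * (sg (σ x) * sg (σ y))) -
            ∑ x : Site d n, ∑ y : Site d n, J (y - x) * (EPL_i B x * EPL_i B y) := by
          rw [← Finset.sum_sub_distrib]
          refine Finset.sum_congr rfl fun x _ => ?_
          rw [← Finset.sum_sub_distrib]
          exact Finset.sum_congr rfl fun y _ => by ring
        rw [h1, Finset.sum_sub_distrib]
        unfold Mg
        ring
      have e2 : |∑ x : Site d n, ∑ y : Site d n, J (y - x) * (sg (σ x) * sg (σ y) - EPL_i B x * EPL_i B y)| ≤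
          2 * T * B.card := by
        have h1 : |∑ x : Site d n, ∑ y : Site d n, J (y - x) * (sg (σ x) * sg (σ y) - EPL_i B x * EPL_i B y)| ≤
            ∑ x : Site d n, ∑ y : Site d n, J (y - x) * ((if x ∈ B then (1 : ℝ) else 0) + (if y ∈ B then 1 else 0)) := by
          refine (Finset.abs_sum_le_sum_abs _ _).trans (Finset.sum_le_sum fun x _ => ?_)
          refine (Finset.abs_sum_le_sum_abs _ _).trans (Finset.sum_le_sum fun y _ => ?_)
          rw [abs_mul, abs_of_nonneg (hJ _)]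
          exact mul_le_mul_of_nonneg_left (EPL_pair B σ hσ' x y) (hJ _)
        have h2 : ∑ x : Site d n, ∑ y : Site d n, J (y - x) * (if x ∈ B then (1 : ℝ) else 0) = B.card * ∑ z, J z := by
          have : ∀ x : Site d n, ∑ y : Site d n, J (y - x) * (if x ∈ B then (1 : ℝ) else 0) =
              (if x ∈ B then (1 : ℝ) else 0) * ∑ z, J z := by
            intro x
            rw [← Finset.sum_mul, mul_comm]
            congr 1
            exact Equiv.sum_comp (Equiv.subRight x) J
          rw [Finset.sum_congr rfl fun x _ => this x, ← Finset.sum_mul]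
          congr 1
          rw [Finset.sum_ite_mem, Finset.univ_inter, Finset.sum_const, nsmul_eq_mul, mul_one]
        have h3 : ∑ x : Site d n, ∑ y : Site d n, J (y - x) * (if y ∈ B then (1 : ℝ) else 0) = B.card * ∑ z, J z := by
          rw [Finset.sum_comm]
          have : ∀ y : Site d n, ∑ x : Site d n, J (y - x) * (if y ∈ B then (1 : ℝ) else 0) =
              (if y ∈ B then (1 : ℝ) else 0) * ∑ z, J z := by
            intro y
            rw [← Finset.sum_mul, mul_comm]
            congr 1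
            exact Equiv.sum_comp (Equiv.subLeft y) J
          rw [Finset.sum_congr rfl fun x _ => this x, ← Finset.sum_mul]
          congr 1
          rw [Finset.sum_ite_mem, Finset.univ_inter, Finset.sum_const, nsmul_eq_mul, mul_one]
        refine h1.trans ?_
        have h4 : ∑ x : Site d n, ∑ y : Site d n, J (y - x) * ((if x ∈ B then (1 : ℝ) else 0) + (if y ∈ B then 1 else 0)) =
            (∑ x : Site d n, ∑ y : Site d n, J (y - x) * (if x ∈ B then (1 : ℝ) else 0)) +
            ∑ x : Site d n, ∑ y : Site d n, J (y - x) * (if y ∈ B then (1 : ℝ) else 0) := by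
          rw [← Finset.sum_add_distrib]
          refine Finset.sum_congr rfl fun x _ => ?_
          rw [← Finset.sum_add_distrib]
          exact Finset.sum_congr rfl fun y _ => by ring
        rw [h4, h2, h3]
        have hB : (0 : ℝ) ≤ B.card := Nat.cast_nonneg _
        nlinarith
      have e3 : |h * ∑ x, (sg (σ x) - EPL_i B x)| ≤ T * B.card := by
        rw [abs_mul, abs_of_nonneg hh]
        have h1 : |∑ x, (sg (σ x) - EPL_i B x)| ≤ B.card := by
          refine (Finset.abs_sum_le_sum_abs _ _).trans ?_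
          refine (Finset.sum_le_sum fun x _ => EPL_site B σ hσ' x).trans ?_
          rw [Finset.sum_ite_mem, Finset.univ_inter, Finset.sum_const, nsmul_eq_mul, mul_one]
        exact mul_le_mul hhT h1 (abs_nonneg _) (hh.trans hhT)
      rw [e1]
      refine (abs_add_le _ _).trans ?_
      linarith)
  have hE1 : exA (KT β J) (fun _ => h) (univ \ B) f =
      (∑ σ ∈ pl (univ \ B), Real.exp (β * HN σ) * Real.exp ((∑ x, ∑ y, J (y - x) * (sg (σ x) * sg (σ y))) + h * Mg σ) * f σ) /
      (∑ σ ∈ pl (univ \ B), Real.exp (β * HN σ) * Real.exp ((∑ x, ∑ y, J (y - x) * (sg (σ x) * sg (σ y))) + h * Mg σ)) := by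
    have hexp : ∀ σ : Conf d n, Real.exp (CWM.HH (KT β J) (fun _ => h) σ) =
        Real.exp (β * HN σ) * Real.exp ((∑ x, ∑ y, J (y - x) * (sg (σ x) * sg (σ y))) + h * Mg σ) := by
      intro σ
      rw [(hHHT d n β h J σ).1, ← Real.exp_add]
      congr 1
      ring
    unfold exA
    congr 1
    · exact Finset.sum_congr rfl fun σ _ => by rw [hexp]
    · exact Finset.sum_congr rfl fun σ _ => by rw [hexp]
  have hE2 : exA (KT β fun _ => 0) (fun _ => 0) (univ \ B) f =
      (∑ σ ∈ pl (univ \ B), Real.exp (β * HN σ) * f σ) / (∑ σ ∈ pl (univ \ B), Real.exp (β * HN σ)) := by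
    have hexp : ∀ σ : Conf d n, Real.exp (CWM.HH (KT β fun _ => 0) (fun _ => 0) σ) = Real.exp (β * HN σ) := by
      intro σ
      rw [(hHHT d n β 0 (fun _ => 0) σ).1]
      congr 1
      simp
    unfold exA
    congr 1
    · exact Finset.sum_congr rfl fun σ _ => by rw [hexp]
    · exact Finset.sum_congr rfl fun σ _ => by rw [hexp]
  rw [hE1, hE2]
  exact hP


private theorem EPL_exlin {V : Type} [Fintype V] [DecidableEq V] (K : V → V → ℝ) (g : V → ℝ) (A : Finset V) (x y : V) :
    exA K g A (fun σ => sg (σ x) + sg (σ y) - sg (σ x) * sg (σ y)) =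
      exA K g A (fun σ => sg (σ x)) + exA K g A (fun σ => sg (σ y)) - exA K g A (fun σ => sg (σ x) * sg (σ y)) := by
  unfold exA
  rw [← add_div, ← sub_div, ← Finset.sum_add_distrib, ← Finset.sum_sub_distrib]
  congr 1
  exact Finset.sum_congr rfl fun σ _ => by ring

private theorem EPL_KT {d n : ℕ} [NeZero n] (b b' : ℝ) (hbb : b' ≤ b) (x y : Site d n) :
    KT b' (fun _ => 0) x y ≤ KT b (fun _ => 0) x y := by
  unfold KT
  have h : (0 : ℝ) ≤ ∑ i : Fin d, if y = x + ev i then (1 : ℝ) else 0 :=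
    Finset.sum_nonneg fun i _ => by split_ifs <;> norm_num
  have := mul_le_mul_of_nonneg_right hbb h
  linarith

private theorem EPL_KT0 {d n : ℕ} [NeZero n] (b : ℝ) (hb : 0 ≤ b) (x y : Site d n) :
    0 ≤ KT b (fun _ => 0) x y := by
  unfold KT
  have h : (0 : ℝ) ≤ ∑ i : Fin d, if y = x + ev i then (1 : ℝ) else 0 :=
    Finset.sum_nonneg fun i _ => by split_ifs <;> norm_num
  have := mul_nonneg hb h
  linarith

theorem EPL (hKEY : KEY_stmt) (hUPA : UPA_stmt) (hMSP : MSP_stmt) (hPTB : PTB_stmt) (hSTO : STO_stmt) (hCAB : CAB_stmt)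
    (hGKW : GKW_stmt) (hTRI : TRI_stmt) (hHHT : HHT_stmt) (hVF : CU.VF_stmt) (hBC : CU.BC_stmt) : EPL_stmt := by
  intro d b a κ hd hb ha hκ
  have hd' : (1 : ℝ) ≤ d := by exact_mod_cast hd
  set κ₁ : ℝ := κ / (16 * d) with hκ₁
  have hκ₁0 : 0 < κ₁ := by positivity
  obtain ⟨L₀, hL₀⟩ := (hMSP d).2.2.1 b κ₁ hb.le hκ₁0
  set L₁ := L₀ with hL₁
  obtain ⟨δ₀, hδ₀, hδ₀b, hkey⟩ := hKEY d b a κ₁ hd hb ha hκ₁0
  set η : ℝ := Real.log (1 + κ₁ / 2) with hη
  have hη0 : 0 < η := Real.log_pos (by linarith)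
  have hexp : ∀ t : ℝ, t ≤ η → 2 * (Real.exp t - 1) ≤ κ₁ := by
    intro t ht
    have h1 : Real.exp t ≤ 1 + κ₁ / 2 := by
      rw [← Real.exp_log (by linarith : (0 : ℝ) < 1 + κ₁ / 2)]
      exact Real.exp_le_exp.2 ht
    linarith
  set C₁ : ℝ := (2 * (L₁ : ℝ) + 1) ^ d with hC₁
  set C₂ : ℝ := (2 * ((L₁ + 1 : ℕ) : ℝ) + 1) ^ d with hC₂
  have hC₁0 : 0 < C₁ := by positivity
  have hC₂0 : 0 < C₂ := by positivity
  set δ : ℝ := min δ₀ (min (η / (6 * a * C₁)) (η / (6 * d * C₂))) with hδ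
  have hδ0 : 0 < δ := lt_min hδ₀ (lt_min (by positivity) (by positivity))
  have hδδ₀ : δ ≤ δ₀ := min_le_left _ _
  have hδ1 : 6 * (a * δ) * C₁ ≤ η := by
    have h1 : δ ≤ η / (6 * a * C₁) := (min_le_right _ _).trans (min_le_left _ _)
    rw [le_div_iff₀ (by positivity)] at h1
    linarith
  have hδ2 : 2 * (3 * (d * δ) * C₂) ≤ η := by
    have h1 : δ ≤ η / (6 * d * C₂) := (min_le_right _ _).trans (min_le_right _ _)
    rw [le_div_iff₀ (by positivity)] at h1
    linarith
  have hδb : δ ≤ b := hδδ₀.trans hδ₀b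
  refine ⟨L₁ + 1, δ, by omega, hδ0, hδb, ?_⟩
  filter_upwards [hkey δ hδ0 hδδ₀, eventually_ge_atTop (2 * L₁)] with n hn1 hn2
  have hbδ : 0 ≤ b - δ := by linarith
  have hh0 : 0 ≤ a * δ := by positivity
  set A : Finset (Site d (n + 3)) := univ \ Box (L₁ + 1) (0 : Site d (n + 3)) with hA
  -- the main inequality for one direction
  have hone : ∀ i : Fin d, exA (KT b fun _ => 0) (fun _ => 0) A (fun σ : Conf d (n + 3) => sg (σ 0) * sg (σ (ev i))) - 7 * κ₁ ≤
      cT (d := d) (n := n + 3) (b - δ) (fun _ => 0) (a * δ) (ev i) := by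
    intro i
    -- upper bounds of the one point functions with plus off the box
    have hup : ∀ x : Site d (n + 3), (∀ y ∈ A, ¬ Near L₁ x y) →
        exA (KT (b - δ) fun _ => 0) (fun _ => a * δ) A (fun σ : Conf d (n + 3) => sg (σ x)) ≤ ms d b + 2 * κ₁ := by
      intro x hx
      have h1 := (hGKW (Site d (n + 3)) (KT (b - δ) fun _ => 0) (KT b fun _ => 0) (fun _ => a * δ) (fun _ => a * δ)
        (EPL_KT0 _ hbδ) (fun _ => hh0) (EPL_KT b (b - δ) (by linarith)) (fun _ => le_rfl) A A (Finset.Subset.refl _) x x).1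
      have h2 := (hUPA d (n + 3) L₁ (by omega) b (a * δ) (a * δ) (fun _ => 0) hb.le hh0 (fun _ => le_rfl)
        (by simpa using hh0) le_rfl).1 A x hx
      have h3 : ExD b (Box L₁ 0) (fun σ : Conf d (n + 3) => sg (σ 0)) = CS.ML d b L₁ := hVF d b L₁ n hn2
      rw [h3] at h2
      have h4 := hexp _ hδ1
      have h5 := hL₀ L₁ le_rfl
      linarith
    have hx0 : ∀ y ∈ A, ¬ Near L₁ (0 : Site d (n + 3)) y := by
      intro y hy hN
      rw [hA, Finset.mem_sdiff] at hy
      refine hy.2 ?_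
      unfold Box
      rw [Finset.mem_filter]
      refine ⟨mem_univ _, fun k => (hN k).trans (by omega)⟩
    have hxe : ∀ y ∈ A, ¬ Near L₁ (ev i : Site d (n + 3)) y := by
      intro y hy hN
      rw [hA, Finset.mem_sdiff] at hy
      refine hy.2 ?_
      unfold Box
      rw [Finset.mem_filter]
      exact ⟨mem_univ _, EPL_near (by omega) i hN⟩
    have hu0 := hup 0 hx0
    have hue := hup (ev i) hxe
    -- FKG
    have hf := EPL_fkg hSTO hCAB hHHT d (n + 3) (b - δ) (a * δ) hbδ A _ (EPL_mono (0 : Site d (n + 3)) (ev i))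
    have hemp := (hGKW (Site d (n + 3)) (KT (b - δ) fun _ => 0) (KT (b - δ) fun _ => 0) (fun _ => a * δ) (fun _ => a * δ)
        (EPL_KT0 _ hbδ) (fun _ => hh0) (fun _ _ => le_rfl) (fun _ => le_rfl) ∅ ∅ (Finset.Subset.refl _) 0 0).2.2.2.2
    rw [← hemp, EPL_exlin, EPL_exlin, hemp, hemp, hemp, (hTRI d (n + 3) (b - δ) (a * δ) (fun _ => 0)).2.1 (ev i)] at hf
    have hmT : ex (KT (b - δ) fun _ => 0) (fun _ => a * δ) (fun σ : Conf d (n + 3) => sg (σ 0)) = mT d (n + 3) (b - δ) (a * δ) := rfl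
    have hcT : ex (KT (b - δ) fun _ => 0) (fun _ => a * δ) (fun σ : Conf d (n + 3) => sg (σ 0) * sg (σ (ev i))) =
      cT (d := d) (n := n + 3) (b - δ) (fun _ => 0) (a * δ) (ev i) := rfl
    rw [hmT, hcT] at hf
    -- perturbation
    have hsg : ∀ c : Bool, |sg c| ≤ 1 := by
      intro c
      cases c <;> simp [sg]
    have hp := EPL_core hHHT hPTB d (n + 3) (b - δ) 0 (d * δ) (fun z => δ * ∑ j : Fin d, if z = ev j then (1 : ℝ) else 0) le_rfl
      (fun z => mul_nonneg hδ0.le (Finset.sum_nonneg fun j _ => by split_ifs <;> norm_num))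
      (by
        rw [← Finset.mul_sum, Finset.sum_comm]
        have h1 : ∀ j : Fin d, ∑ z : Site d (n + 3), (if z = ev j then (1 : ℝ) else 0) = 1 := by
          intro j
          rw [Finset.sum_ite_eq' univ (ev j) (fun _ => (1 : ℝ)), if_pos (mem_univ _)]
        rw [Finset.sum_congr rfl fun j _ => h1 j]
        simp
        linarith)
      (by positivity) (Box (L₁ + 1) (0 : Site d (n + 3))) (fun σ => sg (σ 0) * sg (σ (ev i))) (fun σ => by
        show |sg (σ 0) * sg (σ (ev i))| ≤ 1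
        rw [abs_mul]
        exact mul_le_one₀ (hsg _) (abs_nonneg _) (hsg _))
    have hKK : (KT (b - δ) (fun z : Site d (n + 3) => δ * ∑ j : Fin d, if z = ev j then (1 : ℝ) else 0)) = KT b fun _ => 0 := by
      funext x y
      unfold KT
      have h1 : ∀ j : Fin d, (y - x = ev j) ↔ (y = x + ev j) := by
        intro j
        rw [sub_eq_iff_eq_add']
      simp only [h1]
      ring
    rw [hKK] at hp
    have hq := (hGKW (Site d (n + 3)) (KT (b - δ) fun _ => 0) (KT (b - δ) fun _ => 0) (fun _ => 0) (fun _ => a * δ)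
        (EPL_KT0 _ hbδ) (fun _ => le_rfl) (fun _ _ => le_rfl) (fun _ => hh0) A A (Finset.Subset.refl _) 0 (ev i)).2.1
    have hr : 2 * (Real.exp (2 * (3 * (d * δ) * ((Box (L₁ + 1) (0 : Site d (n + 3))).card : ℝ))) - 1) ≤ κ₁ := by
      apply hexp
      refine le_trans ?_ hδ2
      have h4 : ((Box (L₁ + 1) (0 : Site d (n + 3))).card : ℝ) ≤ C₂ := by
        rw [hC₂]
        exact_mod_cast hBC d (n + 3) (L₁ + 1) 0
      have h5 : 0 ≤ (d : ℝ) * δ := by positivity
      nlinarith
    rw [← hA] at hp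
    linarith
  -- sum over the directions
  have hsum := Finset.sum_le_sum fun (i : Fin d) (_ : i ∈ (univ : Finset (Fin d))) => hone i
  rw [Finset.sum_sub_distrib] at hsum
  have h7 : ∑ _i : Fin d, 7 * κ₁ = 7 * κ / 16 := by
    rw [Finset.sum_const, Finset.card_univ, Fintype.card_fin, nsmul_eq_mul, hκ₁]
    field_simp
  rw [h7] at hsum
  unfold uP
  linarith

end CO
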